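import Pool.Agent.helper70.LE.SpecN
import Pool.Agent.helper59.FI.Base

/-!
# Project LE (MP_baa4d7_al), block NIL, row SCU: the section of `u` in `a L`
-/

set_option autoImplicit false

namespace Pool.Agent.LE

open Pool.Agent.helper58.DC Pool.Agent.DI Pool.Agent.GR Pool.Agent.OB Pool.Agent.DR Pool.Agent.FI Pool.Agent.FI3 Pool.Agent.FI4

/-- conjugation with `w` maps `BlC M L θ u` into itself -/
theorem SCU_map {G : Type} [Group G] [Finite G] {M : Ideal (integralClosure ℤ ℂ)} {L : Subgroup G} {θ : G → ℂ}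
    {u w : G} (hw : w ∈ nz L) (hwu : w * u = u * w) (hθ : SB M L (cjF w θ) θ) {η : G → ℂ} (hη : η ∈ BlC M L θ u) :
    cjF w η ∈ BlC M L θ u := by
  have hL : cj w L = L := cj_nz.2 hw
  have hu : w * u * w⁻¹ = u := by
    rw [hwu]
    group
  have hK : cj w (Cz L u) = Cz L u := by
    rw [← cj_Cz, hL, hu]
  refine ⟨?_, ?_⟩
  · have h1 := IrrOn_funMap hη.1 w
    rw [hK] at h1
    exact h1
  · have h1 := SB_conj hη.2 w
    rw [hL] at h1
    exact h1.trans hθ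

/-- the idempotent of a set of characters stable under conjugation with `w` and `w⁻¹` is invariant under `w` -/
theorem SCU_inv {G : Type} [Group G] (K : Subgroup G) (S : Set (G → ℂ)) (w : G)
    (h1 : ∀ η ∈ S, cjF w η ∈ S) (h2 : ∀ η ∈ S, cjF w⁻¹ η ∈ S) (t : G) : eS K S (w * t * w⁻¹) = eS K S t := by
  unfold eS
  congr 1
  have e1 : ∀ (g : G) (η : G → ℂ) , cjF g (cjF g⁻¹ η) = η := by
    intro g η
    funext x
    rw [cjF_apply, cjF_apply]
    congr 1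
    group
  have e2 : ∀ (g : G) (η : G → ℂ) , cjF g⁻¹ (cjF g η) = η := by
    intro g η
    funext x
    rw [cjF_apply, cjF_apply]
    congr 1
    group
  refine finsum_mem_eq_of_bijOn (fun η => cjF w⁻¹ η) ⟨fun η hη => h2 η hη, ?_, ?_⟩ ?_
  · intro η _ η' _ h
    have h3 := congrArg (cjF w) h
    dsimp only at h3
    rwa [e1, e1] at h3
  · intro η hη
    exact ⟨cjF w η, h1 η hη, e2 w η⟩
  · intro η _
    rw [cjF_apply, cjF_apply]
    congr 1
    · congr 1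
      group
    · congr 1
      group

theorem SCU (hSEG : SEG_stmt) (hHIB : HIB_stmt) (hNYT : NYT_stmt) (hFBC : FBC_stmt) (hIDM : IDM_stmt) (hEIN : EIN_stmt) : SCU_stmt := by
  intro p M hS G _ _ D x θ χ hA Q hQ a haT haQ y hyT hyQ hay u hu hpu v hv huv hav
  have hNa : NY (cz Q) (eBl M (cz Q) θ) a := (hNYT p M hS G D x θ χ hA Q hQ a haT haQ).1
  have hNy : NY (cz Q) (eBl M (cz Q) θ) y := (hNYT p M hS G D x θ χ hA Q hQ y hyT hyQ).1
  have hHI := (hHIB p M hS G (cz Q) θ).1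
  have hDL : cz D ≤ cz Q := cz_mono hQ
  have hBC := (hFBC p M hS G (cz Q) θ u).2.1
  obtain ⟨f1, -, f3, -⟩ := hIDM G (Cz (cz Q) u) (BlC M (cz Q) θ u) hBC.sub
  have hfI : Idm M (Cz (cz Q) u) (eS (Cz (cz Q) u) (BlC M (cz Q) θ u)) :=
    { sup := f1.2, int := hEIN p M hS G _ _ hBC, idem := f3 }
  -- `u v = a l₀`
  obtain ⟨l₀, hl₀, hw⟩ : ∃ l₀ ∈ cz Q, u * v = a * l₀ := by
    refine ⟨a⁻¹ * v * u, (cz Q).mul_mem hav hu, ?_⟩
    rw [huv.eq]
    group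
  have hwn : u * v ∈ nz (cz Q) := by
    rw [hw]
    exact (nz (cz Q)).mul_mem hNa.nor (Subgroup.le_normalizer hl₀)
  have hwu : (u * v) * u = u * (u * v) := by
    rw [mul_assoc, ← huv.eq]
  -- the block of `θ` is stable
  have hθa : SB M (cz Q) (cjF a θ) θ := by
    have h1 := (mem_TT.1 haT).2
    have h2 : ∀ x, x ∉ cz D → θ x = 0 := hA.rt.th.1
    have h3 : cj a (cz D) = cz D := by
      rw [← cj_cz, cj_nz.2 (mem_TT.1 haT).1]
    have h4 := funMap_zero h2 a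
    rw [h3] at h4
    exact TRNb hDL h4 h2 h1
  have hθw : SB M (cz Q) (cjF (u * v) θ) θ := by
    rw [hw]
    have h1 : cjF (a * l₀) θ = cjF a (cjF l₀ θ) := by
      funext t
      rw [cjF_apply, cjF_apply, cjF_apply]
      congr 1
      group
    rw [h1]
    have h2 := SB_conj (SB_inner hl₀ θ) (M := M) a
    rw [cj_nz.2 hNa.nor] at h2
    exact h2.trans hθa
  have hθw' : SB M (cz Q) (cjF (u * v)⁻¹ θ) θ := by
    have h2 := SB_conj hθw (u * v)⁻¹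
    rw [cj_nz.2 ((nz (cz Q)).inv_mem hwn)] at h2
    have h3 : cjF (u * v)⁻¹ (cjF (u * v) θ) = θ := by
      funext t
      rw [cjF_apply, cjF_apply]
      congr 1
      group
    change SB M (cz Q) (cjF (u * v)⁻¹ (cjF (u * v) θ)) (cjF (u * v)⁻¹ θ) at h2
    rw [h3] at h2
    exact h2.symm
  have hwu' : (u * v)⁻¹ * u = u * (u * v)⁻¹ := by
    have h1 : Commute (u * v) u := hwu
    exact h1.inv_left.eq
  have hf : ∀ t, eS (Cz (cz Q) u) (BlC M (cz Q) θ u) ((u * v) * t * (u * v)⁻¹) =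
      eS (Cz (cz Q) u) (BlC M (cz Q) θ u) t :=
    SCU_inv _ _ (u * v) (fun η hη => SCU_map hwn hwu hθw hη)
      (fun η hη => SCU_map ((nz (cz Q)).inv_mem hwn) hwu' hθw' hη)
  have he : ∀ t, eBl M (cz Q) θ ((u * v) * t * (u * v)⁻¹) = eBl M (cz Q) θ t := by
    intro t
    rw [hw]
    have h1 : a * l₀ * t * (a * l₀)⁻¹ = a * (l₀ * t * l₀⁻¹) * a⁻¹ := by group
    rw [h1, hNa.inv, hHI.cls l₀ hl₀]
  have hL : ∀ z, y⁻¹ * z ∈ cz Q → y⁻¹ * ((u * v) * z * (u * v)⁻¹) ∈ cz Q := by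
    intro z hz
    rw [hw]
    have h1 : y⁻¹ * ((a * l₀) * z * (a * l₀)⁻¹) =
        (y⁻¹ * (a * y * a⁻¹ * y⁻¹) * y) * (a * ((y⁻¹ * l₀ * y) * (y⁻¹ * z) * l₀⁻¹) * a⁻¹) := by group
    rw [h1]
    have hn : ∀ g ∈ nz (cz Q), ∀ l ∈ cz Q, g * l * g⁻¹ ∈ cz Q := fun g hg l hl =>
      (Subgroup.mem_normalizer_iff.1 hg l).1 hl
    have h2 : y⁻¹ * (a * y * a⁻¹ * y⁻¹) * y ∈ cz Q := by
      have h3 := hn y⁻¹ ((nz (cz Q)).inv_mem hNy.nor) _ (hDL hay)
      rwa [inv_inv] at h3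
    have h4 : y⁻¹ * l₀ * y ∈ cz Q := by
      have h3 := hn y⁻¹ ((nz (cz Q)).inv_mem hNy.nor) _ hl₀
      rwa [inv_inv] at h3
    exact (cz Q).mul_mem h2 (hn a hNa.nor _ ((cz Q).mul_mem ((cz Q).mul_mem h4 hz) ((cz Q).inv_mem hl₀)))
  have h := hSEG p M hS G (cz Q) (eBl M (cz Q) θ) (eS (Cz (cz Q) u) (BlC M (cz Q) θ u)) u v u v y hpu hpu hv hv huv huv
    hHI.idm hfI he hf (fun t ht => hA.eqr Q hQ u hu hpu t ht) hNy.nor hL
  rw [h]
  refine finsum_mem_congr rfl fun z hz => ?_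
  congr 1
  have h1 : u * z = z * u := hz.2
  have h2 : (u * v) * z * (u * v)⁻¹ * z⁻¹ = v * z * v⁻¹ * z⁻¹ := by
    have h3 : (u * v) * z = v * z * u := by
      rw [huv.eq, mul_assoc, h1, ← mul_assoc]
    rw [h3]
    have h4 : v * z * u * (u * v)⁻¹ * z⁻¹ = v * z * v⁻¹ * (v * u * (u * v)⁻¹) * z⁻¹ := by group
    rw [h4, huv.eq]
    group
  exact h2

end Pool.Agent.LE
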