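import Pool.Agent.helper12.LE.StmL

/-!
# Project LE (MP_baa4d7_al), row SHA: the number of the elements of order `p`
-/

set_option autoImplicit false

namespace Pool.Agent.LE

open Pool.Agent.helper58.DC Pool.Agent.DI Pool.Agent.GR Pool.Agent.OB Pool.Agent.DR Pool.Agent.FI Pool.Agent.FI3 Pool.Agent.FI4 Pool.Agent.FIL

theorem SHA_cyc (p k : ℕ) (hp : p.Prime) (hk : 1 ≤ k) :
    Nat.card {x : Multiplicative (ZMod (p ^ k)) // x ^ p = 1} = p := by
  have : NeZero (p ^ k) := ⟨pow_ne_zero _ hp.ne_zero⟩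
  have : Finite (Multiplicative (ZMod (p ^ k))) := inferInstanceAs (Finite (ZMod (p ^ k)))
  have h1 := IsCyclic.card_powMonoidHom_ker (G := Multiplicative (ZMod (p ^ k))) p
  have h2 : Nat.card (Multiplicative (ZMod (p ^ k))) = p ^ k := by
    rw [Nat.card_congr (Multiplicative.toAdd (α := ZMod (p ^ k))), Nat.card_zmod]
  rw [h2, Nat.gcd_eq_right (dvd_pow_self p (by omega))] at h1
  exact h1

theorem SHA : SHA_stmt := by
  intro p G _ _ D hp r a ha hI
  obtain ⟨e⟩ := hI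
  have e1 : {u : G // u ∈ {u : G | u ∈ D ∧ u ^ p = 1}} ≃ {d : D // d ^ p = 1} :=
    { toFun := fun u => ⟨⟨u.1, u.2.1⟩, Subtype.ext u.2.2⟩
      invFun := fun d => ⟨d.1, d.1.2, congrArg Subtype.val d.2⟩
      left_inv := fun _ => rfl
      right_inv := fun _ => rfl }
  have e2 : {d : D // d ^ p = 1} ≃ {f : (i : Fin r) → Multiplicative (ZMod (p ^ a i)) // ∀ i, f i ^ p = 1} := by
    refine e.toEquiv.subtypeEquiv fun d => ?_
    change d ^ p = 1 ↔ ∀ i, (e d) i ^ p = 1
    rw [← e.map_eq_one_iff, map_pow, funext_iff]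
    exact Iff.rfl
  have e3 : {f : (i : Fin r) → Multiplicative (ZMod (p ^ a i)) // ∀ i, f i ^ p = 1} ≃
      ((i : Fin r) → {x : Multiplicative (ZMod (p ^ a i)) // x ^ p = 1}) :=
    Equiv.subtypePiEquivPi (p := fun (i : Fin r) (x : Multiplicative (ZMod (p ^ a i))) => x ^ p = 1)
  rw [← Nat.card_coe_set_eq]
  rw [Nat.card_congr ((e1.trans e2).trans e3), Nat.card_pi]
  rw [Finset.prod_congr rfl fun i _ => SHA_cyc p (a i) hp (ha i), Finset.prod_const, Finset.card_univ, Fintype.card_fin]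

end Pool.Agent.LE
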