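import Pool.Agent.helper83.LE.SpecB

/-!
# Project LE (MP_baa4d7_al), block BOUND-L, row SGL: the signs and the integrality (port of `helper98/FI4/SG4.lean`)
-/

set_option autoImplicit false

namespace Pool.Agent.LE

open Pool.Agent.helper58.DC Pool.Agent.DI Pool.Agent.GR Pool.Agent.OB Pool.Agent.DR Pool.Agent.FI Pool.Agent.FI3 Pool.Agent.FI4 Pool.Agent.FI4C

theorem SGL_cz_bot (G : Type) [Group G] : cz (⊥ : Subgroup G) = ⊤ := by
  rw [eq_top_iff]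
  intro x _
  rw [Subgroup.mem_centralizer_iff]
  intro y hy
  have h1 : y = 1 := Subgroup.mem_bot.1 hy
  rw [h1, one_mul, mul_one]

theorem SGL_pin (hPIN : PIN_stmt) {p : ℕ} {M : Ideal (integralClosure ℤ ℂ)} (hS : Setup p M) (hp2 : p ≠ 2) {D : Type}
    [Group D] [Finite D] (com : ∀ a b : D, a * b = b * a)
    (X : Type) [Fintype X] (R : Set D) (I : Subgroup (MulAut D)) (β d : X → D → ℂ) (n : D → ℤ)
    (h1 : IsPGroup p D) (h2 : ¬ p ∣ Nat.card I) (h3 : ∀ t ∈ I, ∀ u ∈ R, t u = u → t = 1)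
    (h4 : ∀ χ, LGC (β χ))
    (h5 : ∀ χ, ∀ t ∈ I, ∀ u, β χ (t u) = β χ u) (h6 : ∀ χ, ∀ u ∈ R, β χ u = (n u : ℂ) * d χ u)
    (h7 : ∀ u ∈ R, ¬ (p : ℤ) ∣ n u)
    (h8 : ∀ u ∈ R, ∀ a, (∀ t ∈ I, t u ≠ a) → ∑ χ, β χ a * (starRingEnd ℂ) (β χ u) = 0)
    (h9 : ∀ u ∈ R, ∑ χ, d χ u * (starRingEnd ℂ) (d χ u) = (Nat.card D : ℂ))
    (h10 : ∀ χ, ∀ u ∈ R, IsIntegral ℤ (d χ u))
    (h11 : ∀ u ∈ R, ∀ s : ℕ, ¬ p ∣ s → u ^ s ∈ R ∧ n (u ^ s) = n u) :
    ∃ ε : D → ℤ, (∀ u, ε u = 1 ∨ ε u = -1) ∧ (∀ u ∈ R, ∀ s : ℕ, ¬ p ∣ s → ε (u ^ s) = ε u) ∧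
      ∀ (χ : X) (F : D → ℂ), LGC F → (∀ u, u ∉ R → F u = 0) →
      ∃ m : ℤ, ∑ᶠ u, R.indicator (fun u => (ε u : ℂ) * d χ u) u * (starRingEnd ℂ) (F u) = (Nat.card D : ℂ) * m := by
  let _ : CommGroup D := { (inferInstance : Group D) with mul_comm := com }
  let _ : Fintype D := Fintype.ofFinite D
  obtain ⟨ε, e1, e2, e3⟩ := hPIN p M D X R I β d n
    { set := hS, odd := hp2, pg := h1, cop := h2, fr := h3, lg := h4, inv := h5, nd := h6, np := h7, ort := h8, nrm := h9,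
      int := h10, pow := h11 }
  refine ⟨ε, e1, e2, fun χ F hF hF0 => ?_⟩
  obtain ⟨m, hm⟩ := e3 χ F hF hF0
  refine ⟨m, ?_⟩
  rw [finsum_eq_sum_of_fintype]
  exact hm

theorem SGL (hPIN : PIN_stmt) (hLCG : LCG_stmt) (hQID : QID_stmt) (hNU : NU4_stmt) (hOR : OR4_stmt) (hDOR : DOR4_stmt) (hGRG : GRG_stmt) (hRGF : RGF_stmt) (hQEU : QEU_stmt) (hQCG : QCG_stmt) (hQDI : QDI_stmt) (hEVM : EVM_stmt) (hIDM : IDM_stmt) : SGL_stmt := by
  classical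
  intro p M hS hp2 G _ _ D x θ χ h
  have hP : (⊥ : Subgroup G) ≤ D := bot_le
  have hbot : cz (⊥ : Subgroup G) = ⊤ := SGL_cz_bot G
  obtain ⟨i, hi⟩ := hQID p M hS G D x θ χ h.rt ⊥ hP
  obtain ⟨n, hn⟩ := hNU p M hS hp2 G D x θ χ h ⊥ hP i hi
  have hDL : D ≤ cz (⊥ : Subgroup G) := Q1_D_le h.rt hP
  have hpg : IsPGroup p D := h.rt.dfa.pgrp
  have hne := IrrOn_ne h.rt.th
  have hfin : (Bl M (cz (⊥ : Subgroup G)) θ).Finite := (IrrOn_fin _).subset fun ψ hψ => hψ.1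
  have hft : Fintype ↥(Bl M (cz (⊥ : Subgroup G)) θ) := hfin.fintype
  have hTn : TT M D θ ⊓ cz (⊥ : Subgroup G) ≤ nz D := fun t ht => ht.1.1
  obtain ⟨I, hIc, hI1, hI2⟩ := QI0 D (TT M D θ ⊓ cz (⊥ : Subgroup G)) hTn
  have hconj : ∀ t ∈ TT M D θ ⊓ cz (⊥ : Subgroup G), ∀ ψ ∈ IrrOn (cz (⊥ : Subgroup G)), ∀ u,
      ev ψ i (t * u * t⁻¹) = ev ψ i u := by
    intro t ht ψ hψ u
    unfold ev
    rw [← finsum_comp_equiv (MulAut.conj t).toEquiv]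
    refine finsum_congr fun y => ?_
    change i (t * y * t⁻¹) * ψ (t * u * t⁻¹ * (t * y * t⁻¹)) = _
    rw [hi.inv t ht y]
    have h1 : t * u * t⁻¹ * (t * y * t⁻¹) = t * (u * y) * t⁻¹ := by group
    rw [h1, IrrOn_conj hψ ht.2]
  obtain ⟨-, hRG, -⟩ := hRGF p M hS.pr G D θ h.rt.th hpg (fun c hc d hd => congrArg Subtype.val (QLA_D_com h.rt ⟨c, hc⟩ ⟨d, hd⟩))
  obtain ⟨ε, hε1, hε2, hε3⟩ := SGL_pin hPIN hS hp2 (QLA_D_com h.rt) ↥(Bl M (cz (⊥ : Subgroup G)) θ)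
    {u : D | (u : G) ∈ RG M D θ} I (fun ψ u => ev ψ i u / θ 1)
    (fun ψ u => dd M (Cz (cz (⊥ : Subgroup G)) u) θ ψ u) (fun u => n u) hpg
    (by
      rw [hIc]
      intro h1
      apply h.bet
      have h2 := Subgroup.relIndex_mul_relIndex (cz D) (TT M D θ ⊓ cz (⊥ : Subgroup G)) (TT M D θ)
        (le_inf cz_le_TT (Q1_C_le hP)) inf_le_left
      rw [← h2]
      exact Dvd.dvd.mul_right h1 _)
    (by
      intro t ht u hu htu
      obtain ⟨s, hs, hst⟩ := hI1 t ht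
      have h1 : s * u = u * s := by
        have h2 := hst u
        rw [htu] at h2
        have h3 : (u : G) * s = s * u * s⁻¹ * s := by rw [← h2]
        rw [h3]
        group
      have h2 : s ∈ cz D := hu.2 s hs.1 h1
      refine MulEquiv.ext fun v => Subtype.ext ?_
      rw [hst, MulAut.one_apply]
      have h3 := (Subgroup.mem_centralizer_iff.1 h2) v v.2
      rw [← h3]
      group)
    (by
      intro ψ
      exact QLA_h1 hLCG hQEU hQCG hS h.rt hP hi ψ.2.1)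
    (by
      intro ψ t ht u
      obtain ⟨s, hs, hst⟩ := hI1 t ht
      rw [hst, hconj s hs ψ ψ.2.1])
    (by
      intro ψ u hu
      exact (hn u hu).2.1 ψ ψ.2.1)
    (by
      intro u hu
      exact (hn u hu).1)
    (by
      intro u hu a hta
      have h1 := hOR p M hS G D x θ χ h ⊥ hP i hi a a.2 u u.2 (by
        intro t ht hta'
        obtain ⟨s, hs, hst⟩ := hI2 t ht
        exact hta s hs (Subtype.ext ((hst u).trans hta')))
      have h2 : ∑ᶠ φ ∈ IrrOn (cz (⊥ : Subgroup G)), ev φ i a * ev φ i (u : G)⁻¹ =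
          ∑ᶠ φ ∈ Bl M (cz (⊥ : Subgroup G)) θ, ev φ i a * ev φ i (u : G)⁻¹ := by
        rw [finsum_mem_def, finsum_mem_def]
        refine finsum_congr fun φ => ?_
        by_cases hφ : φ ∈ Bl M (cz (⊥ : Subgroup G)) θ
        · rw [Set.indicator_of_mem hφ, Set.indicator_of_mem hφ.1]
        · rw [Set.indicator_of_notMem hφ]
          by_cases hφ' : φ ∈ IrrOn (cz (⊥ : Subgroup G))
          · rw [Set.indicator_of_mem hφ', QLA_out hEVM hIDM hi hφ' hφ (hDL a.2), zero_mul]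
          · rw [Set.indicator_of_notMem hφ']
      rw [h2, ← finsum_subtype_eq_finsum_cond, finsum_eq_sum_of_fintype] at h1
      have h3 : ∀ φ : ↥(Bl M (cz (⊥ : Subgroup G)) θ),
          ev φ i a / θ 1 * (starRingEnd ℂ) (ev φ i u / θ 1) =
          (θ 1 * (starRingEnd ℂ) (θ 1))⁻¹ * (ev φ i a * ev φ i (u : G)⁻¹) := by
        intro φ
        rw [map_div₀, QLA_conj hQEU hQCG hS h.rt hP hi φ.2.1 u.2]
        have h4 : (starRingEnd ℂ) (θ 1) ≠ 0 := by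
          rw [Ne, map_eq_zero]
          exact hne
        field_simp
      change ∑ φ : ↥(Bl M (cz (⊥ : Subgroup G)) θ),
        ev φ i a / θ 1 * (starRingEnd ℂ) (ev φ i u / θ 1) = 0
      rw [Finset.sum_congr rfl fun φ _ => h3 φ, ← Finset.mul_sum]
      exact mul_eq_zero_of_right _ h1)
    (by
      intro u hu
      have hg := (hGRG p M hS hp2 G D x θ χ h u hu).2
      have h1 := (hDOR p M hS G D x θ χ h ⊥ hP u u.2 u u.2 hg hg).2.1 rfl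
      rw [← finsum_subtype_eq_finsum_cond, finsum_eq_sum_of_fintype] at h1
      exact h1)
    (by
      intro ψ u _
      exact hQDI G M (cz (⊥ : Subgroup G)) θ u (hDL u.2) ψ ψ.2.1)
    (by
      intro u hu s hs
      exact ⟨(hRG u u.2 s hs).2 hu, (hn u hu).2.2.2 s hs⟩)
  obtain ⟨εG, hp1, hp3⟩ : ∃ εG : G → ℤ, (∀ g, ∀ hg : g ∈ D, εG g = ε ⟨g, hg⟩) ∧
      ∀ g, g ∉ D → εG g = 1 :=
    ⟨fun g => if hg : g ∈ D then ε ⟨g, hg⟩ else 1, fun g hg => dif_pos hg, fun g hg => dif_neg hg⟩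
  refine ⟨εG, ?_, ?_, ?_⟩
  · intro g
    by_cases hg : g ∈ D
    · rw [hp1 g hg]
      exact hε1 _
    · rw [hp3 g hg]
      exact Or.inl rfl
  · intro u hu s hs
    rw [hp1 u hu.1, hp1 (u ^ s) (pow_mem hu.1 s)]
    exact hε2 ⟨u, hu.1⟩ hu s hs
  · intro ψ hψ F hF hF0
    have hψ' : ψ ∈ Bl M (cz (⊥ : Subgroup G)) θ := by
      rw [hbot]
      exact hψ
    obtain ⟨m, hm⟩ := hε3 ⟨ψ, hψ'⟩ F hF hF0
    refine ⟨m, ?_⟩
    rw [← hm]
    refine finsum_congr fun u => ?_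
    congr 1
    by_cases hu : u ∈ {u : D | (u : G) ∈ RG M D θ}
    · rw [Set.indicator_of_mem hu, Set.indicator_of_mem hu, hp1 u u.2, ← hbot]
    · rw [Set.indicator_of_notMem hu, Set.indicator_of_notMem hu]

end Pool.Agent.LE
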